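import Pool.Agent.H705.FP.Stm

set_option autoImplicit false

/-! AMS (project FP of helper705): tail sums of the amplitudes. -/

open Finset
open Pool.Agent.H705 Pool.Agent.H705.FP

namespace Pool.Agent.H457.FP

theorem block {a : ℕ → ℝ} {C0 p : ℝ} (hC0 : 0 ≤ C0)
    (h : ∀ N M : ℕ, 1 ≤ N → N ≤ M → ∑ n ∈ Ico N M, a n ^ 2 ≤ C0 * (N : ℝ) ^ (-p))
    {N M : ℕ} (hN : 1 ≤ N) (hNM : N ≤ M) (hM : M ≤ 2 * N) :
    ∑ n ∈ Ico N M, a n / Real.sqrt ((n : ℝ) + 2) ≤ Real.sqrt C0 * (N : ℝ) ^ (-(p / 2)) := by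
  have hN0 : (0 : ℝ) < N := by exact_mod_cast hN
  have h1 := Finset.sum_mul_sq_le_sq_mul_sq (Ico N M) a (fun n : ℕ => 1 / Real.sqrt ((n : ℝ) + 2))
  have h2 : ∑ n ∈ Ico N M, (1 / Real.sqrt ((n : ℝ) + 2)) ^ 2 ≤ 1 := by
    calc ∑ n ∈ Ico N M, (1 / Real.sqrt ((n : ℝ) + 2)) ^ 2 ≤ ∑ n ∈ Ico N M, 1 / (N : ℝ) := by
          refine Finset.sum_le_sum fun n hn => ?_
          rw [div_pow, one_pow, Real.sq_sqrt (by positivity)]
          apply one_div_le_one_div_of_le hN0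
          have := (Finset.mem_Ico.1 hn).1
          have h3 : (N : ℝ) ≤ n := by exact_mod_cast this
          linarith
      _ = ((M - N : ℕ) : ℝ) * (1 / N) := by rw [Finset.sum_const, Nat.card_Ico, nsmul_eq_mul]
      _ ≤ 1 := by
          rw [mul_one_div, div_le_one hN0]
          exact_mod_cast (by omega : M - N ≤ N)
  have h3 := h N M hN hNM
  have h4 : (∑ n ∈ Ico N M, a n / Real.sqrt ((n : ℝ) + 2)) ^ 2 ≤ C0 * (N : ℝ) ^ (-p) := by
    have e : ∑ n ∈ Ico N M, a n / Real.sqrt ((n : ℝ) + 2) =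
        ∑ n ∈ Ico N M, a n * (1 / Real.sqrt ((n : ℝ) + 2)) :=
      Finset.sum_congr rfl fun n _ => by rw [mul_one_div]
    rw [e]
    refine h1.trans ?_
    calc (∑ n ∈ Ico N M, a n ^ 2) * ∑ n ∈ Ico N M, (1 / Real.sqrt ((n : ℝ) + 2)) ^ 2 ≤
          (∑ n ∈ Ico N M, a n ^ 2) * 1 :=
          mul_le_mul_of_nonneg_left h2 (Finset.sum_nonneg fun _ _ => sq_nonneg _)
      _ ≤ _ := by rw [mul_one]; exact h3
  have h5 : Real.sqrt C0 * (N : ℝ) ^ (-(p / 2)) = Real.sqrt (C0 * (N : ℝ) ^ (-p)) := by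
    rw [Real.sqrt_mul hC0, Real.sqrt_eq_rpow ((N : ℝ) ^ (-p)), ← Real.rpow_mul hN0.le]
    congr 2
    ring
  rw [h5]
  exact Real.le_sqrt_of_sq_le h4

theorem T_AMS : P_AMS := by
  intro a ha m
  obtain ⟨ha0, hamp⟩ := ha
  have hm2 : (0 : ℝ) < (m : ℝ) + 2 := by positivity
  obtain ⟨C1, hC1⟩ := hamp (1 / ((m : ℝ) + 2)) (by positivity)
  obtain ⟨p, hp⟩ : ∃ p : ℝ, p = RO.pe m := ⟨_, rfl⟩
  have hp0 : 0 < p := by
    rw [hp, RO.pe, sub_pos, div_lt_one hm2]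
    have : (0 : ℝ) ≤ m := Nat.cast_nonneg m
    linarith
  have hbd : ∀ N M : ℕ, 1 ≤ N → N ≤ M → ∑ n ∈ Ico N M, a n ^ 2 ≤ |C1| * (N : ℝ) ^ (-p) := by
    intro N M hN hNM
    refine (hC1 N M hN hNM).trans ?_
    have e : (-1 + 1 / ((m : ℝ) + 2)) = -p := by
      rw [hp, RO.pe]
      ring
    rw [e]
    exact mul_le_mul_of_nonneg_right (le_abs_self C1) (Real.rpow_nonneg (Nat.cast_nonneg N) _)
  rw [← hp]
  obtain ⟨r, hr⟩ : ∃ r : ℝ, r = (2 : ℝ) ^ (-(p / 2)) := ⟨_, rfl⟩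
  have hr0 : 0 < r := by rw [hr]; exact Real.rpow_pos_of_pos (by norm_num) _
  have hr1 : r < 1 := by
    rw [hr]
    exact Real.rpow_lt_one_of_one_lt_of_neg (by norm_num) (by linarith)
  have h1r : 0 < 1 - r := by linarith
  obtain ⟨C, hC⟩ : ∃ C : ℝ, C = Real.sqrt |C1| / (1 - r) := ⟨_, rfl⟩
  have hC0 : 0 ≤ C := by rw [hC]; positivity
  have hCe : Real.sqrt |C1| + C * r = C := by
    rw [hC]
    field_simp
    ring
  have key : ∀ d N M : ℕ, 1 ≤ N → N ≤ M → M ≤ 2 ^ d * N →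
      ∑ n ∈ Ico N M, a n / Real.sqrt ((n : ℝ) + 2) ≤ C * (N : ℝ) ^ (-(p / 2)) := by
    intro d
    induction d with
    | zero =>
      intro N M hN hNM hM
      have h1 : M = N := by
        rw [pow_zero, one_mul] at hM
        omega
      rw [h1, Finset.Ico_self, Finset.sum_empty]
      exact mul_nonneg hC0 (Real.rpow_nonneg (Nat.cast_nonneg N) _)
    | succ d ih =>
      intro N M hN hNM hM
      have hN0 : (0 : ℝ) < N := by exact_mod_cast hN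
      have hNp : 0 ≤ (N : ℝ) ^ (-(p / 2)) := Real.rpow_nonneg hN0.le _
      rcases le_total M (2 * N) with h1 | h1
      · refine (block (abs_nonneg C1) hbd hN hNM h1).trans (mul_le_mul_of_nonneg_right ?_ hNp)
        have : 0 ≤ C * r := mul_nonneg hC0 hr0.le
        linarith
      · have h2 := block (abs_nonneg C1) hbd hN (by omega : N ≤ 2 * N) le_rfl
        have h3 := ih (2 * N) M (by omega) h1 (by rw [pow_succ] at hM; linarith)
        have h4 : ((2 * N : ℕ) : ℝ) ^ (-(p / 2)) = r * (N : ℝ) ^ (-(p / 2)) := by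
          rw [hr, ← Real.mul_rpow (by norm_num) hN0.le]
          push_cast
          rfl
        rw [h4] at h3
        rw [← Finset.sum_Ico_consecutive _ (by omega : N ≤ 2 * N) h1]
        calc _ ≤ Real.sqrt |C1| * (N : ℝ) ^ (-(p / 2)) + C * (r * (N : ℝ) ^ (-(p / 2))) := add_le_add h2 h3
          _ = (Real.sqrt |C1| + C * r) * (N : ℝ) ^ (-(p / 2)) := by ring
          _ = _ := by rw [hCe]
  refine ⟨C, hC0, fun N M hN hNM => key M N M hN hNM ?_⟩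
  calc M ≤ 2 ^ M := (Nat.lt_two_pow_self).le
    _ = 2 ^ M * 1 := (mul_one _).symm
    _ ≤ 2 ^ M * N := Nat.mul_le_mul_left _ hN

end Pool.Agent.H457.FP
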